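import Mathlib
import Pool.Agent.Lib_helper98.LISSub

set_option autoImplicit false

open MeasureTheory Set Filter Topology

namespace Pool.Agent.Results.MP_2ff427_pr.PowerWidths

/-- `E L^R` for the rotated rectangle of length `ℓ` and width `w` and a unit rate Poisson process:
the sum over the number `n` of points of `e^{-ℓ w} / n!` times the integral over `R^n` of the
largest size of a set of indices whose points are pairwise strictly comparable in both
coordinates. The rectangle is `0 ≤ (x + y)/√2 ≤ ℓ`, `|x - y|/√2 ≤ w/2`. -/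
noncomputable def meanLongest (ℓ w : ℝ) : ℝ :=
  ∑' n : ℕ, Real.exp (-(ℓ * w)) / (n.factorial : ℝ) *
    ∫ x in Set.univ.pi (fun _ : Fin n =>
        {p : ℝ × ℝ | 0 ≤ p.1 + p.2 ∧ p.1 + p.2 ≤ Real.sqrt 2 * ℓ ∧
          |p.1 - p.2| ≤ Real.sqrt 2 * w / 2}),
      (((sSup {k : ℕ | ∃ s : Finset (Fin n), s.card = k ∧
          ∀ i ∈ s, ∀ j ∈ s, i ≠ j →
            (((x i).1 < (x j).1 ∧ (x i).2 < (x j).2) ∨
             ((x j).1 < (x i).1 ∧ (x j).2 < (x i).2))}) : ℕ) : ℝ)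

/-- The expansion `E L^R = √2 ℓ - c₁ ℓ / w + (1 + o(1)) c₂ ℓ^{1/2} w^{-1/4}` along the power width
`w = ℓ ^ γ`, as `ℓ → ∞`. -/
def ExpansionAlong (γ c₁ c₂ : ℝ) : Prop :=
  Tendsto (fun ℓ : ℝ => (meanLongest ℓ (ℓ ^ γ) - Real.sqrt 2 * ℓ + c₁ * ℓ / ℓ ^ γ)
    / (c₂ * ℓ ^ ((1 : ℝ) / 2) / (ℓ ^ γ) ^ ((1 : ℝ) / 4))) atTop (𝓝 1)

open Pool.Agent.Lib_helper98.LIS in
lemma meanLongest_eq (ℓ w : ℝ) (hℓ : 0 ≤ ℓ) (hw : 0 ≤ w) : meanLongest ℓ w = G (Rect ℓ w) :=
  frozen_eq_G ℓ w hℓ hw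

open Pool.Agent.Lib_helper98.LIS in
/-- Change of variable: along `ℓ = w ^ (1/γ)`. -/
lemma expansion_var {γ c₁ c₂ : ℝ} (hγ : 0 < γ) (h : ExpansionAlong γ c₁ c₂) :
    ∃ A : ℝ → ℝ, Tendsto A atTop (𝓝 1) ∧ ∀ᶠ w : ℝ in atTop,
      G (Rect (w ^ γ⁻¹) w) / w ^ γ⁻¹ =
        Real.sqrt 2 - c₁ / w + A w * c₂ * w ^ (-(γ⁻¹ / 2 + 1 / 4)) := by
  have hT : Tendsto (fun w : ℝ => w ^ γ⁻¹) atTop atTop := tendsto_rpow_atTop (by positivity)
  have hc₂ : c₂ ≠ 0 := by
    rintro rfl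
    unfold ExpansionAlong at h
    simp only [zero_mul, zero_div, div_zero] at h
    have := tendsto_nhds_unique h tendsto_const_nhds
    norm_num at this
  refine ⟨_, h.comp hT, ?_⟩
  filter_upwards [eventually_gt_atTop (0 : ℝ)] with w hw
  have h1 : (w ^ γ⁻¹) ^ γ = w := by
    rw [← Real.rpow_mul hw.le, inv_mul_cancel₀ hγ.ne', Real.rpow_one]
  have hpos : 0 < w ^ γ⁻¹ := Real.rpow_pos_of_pos hw _
  have hw4 : 0 < w ^ ((1 : ℝ) / 4) := Real.rpow_pos_of_pos hw _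
  have hs : 0 < (w ^ γ⁻¹) ^ ((1 : ℝ) / 2) := Real.rpow_pos_of_pos hpos _
  simp only [Function.comp_apply]
  rw [h1, meanLongest_eq _ _ hpos.le hw.le]
  have h2 : w ^ (-(γ⁻¹ / 2 + 1 / 4)) = (w ^ γ⁻¹) ^ ((1 : ℝ) / 2) / (w ^ γ⁻¹) / w ^ ((1 : ℝ) / 4) := by
    rw [← Real.rpow_mul hw.le, ← Real.rpow_sub hw, ← Real.rpow_sub hw]
    congr 1
    ring
  rw [h2]
  field_simp
  ring

open Pool.Agent.Lib_helper98.LIS in
/-- Along power widths `w = ℓ ^ γ` with `0 < γ < 2/5` the expansion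
`E L^R = √2 ℓ - c₁ ℓ / w + (1 + o(1)) c₂ ℓ^{1/2} w^{-1/4}` holds for at most one exponent, even if
the constants may depend on the exponent. -/
theorem result (γ γ' : ℝ) (hγ : 0 < γ) (hγγ' : γ < γ') (hγ' : γ' < 2 / 5)
    (c₁ c₂ c₁' c₂' : ℝ) :
    ¬ (ExpansionAlong γ c₁ c₂ ∧ ExpansionAlong γ' c₁' c₂') := by
  rintro ⟨h, h'⟩
  have hc₂' : c₂' ≠ 0 := by
    rintro rfl
    unfold ExpansionAlong at h'
    simp only [zero_mul, zero_div, div_zero] at h'
    have := tendsto_nhds_unique h' tendsto_const_nhds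
    norm_num at this
  have hγ'0 : 0 < γ' := hγ.trans hγγ'
  obtain ⟨B, hB, hBe⟩ := expansion_var hγ h
  obtain ⟨A, hA, hAe⟩ := expansion_var hγ'0 h'
  set a : ℝ := γ'⁻¹ with ha
  set b : ℝ := γ⁻¹ with hb
  have hab : a < b := by
    rw [ha, hb]
    exact inv_strictAnti₀ hγ hγγ'
  have ha52 : 5 / 2 < a := by
    rw [ha, lt_inv_comm₀ (by norm_num) hγ'0]
    norm_num at hγ' ⊢
    exact hγ'
  set x : ℝ → ℝ := fun w => G (Rect (w ^ a) w) / w ^ a with hx
  set y : ℝ → ℝ := fun w => G (Rect (w ^ b) w) / w ^ b with hy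
  -- powers tending to zero
  have hpow : ∀ e : ℝ, 0 < e → Tendsto (fun w : ℝ => w ^ (-e)) atTop (𝓝 0) := fun e he =>
    tendsto_rpow_neg_atTop he
  have hinv : Tendsto (fun w : ℝ => w⁻¹) atTop (𝓝 0) := tendsto_inv_atTop_zero
  -- limits of `x` and `y`
  have hxlim : Tendsto x atTop (𝓝 (Real.sqrt 2)) := by
    have h1 : Tendsto (fun w : ℝ => Real.sqrt 2 - c₁' * w⁻¹ + A w * c₂' * w ^ (-(a / 2 + 1 / 4)))
        atTop (𝓝 (Real.sqrt 2 - c₁' * 0 + 1 * c₂' * 0)) :=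
      (tendsto_const_nhds.sub (hinv.const_mul _)).add ((hA.mul_const _).mul (hpow _ (by linarith)))
    simp only [mul_zero, sub_zero, add_zero] at h1
    refine h1.congr' ?_
    filter_upwards [hAe] with w hw
    rw [hx]
    simp only
    rw [hw, div_eq_mul_inv c₁']
  have hylim : Tendsto y atTop (𝓝 (Real.sqrt 2)) := by
    have h1 : Tendsto (fun w : ℝ => Real.sqrt 2 - c₁ * w⁻¹ + B w * c₂ * w ^ (-(b / 2 + 1 / 4)))
        atTop (𝓝 (Real.sqrt 2 - c₁ * 0 + 1 * c₂ * 0)) :=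
      (tendsto_const_nhds.sub (hinv.const_mul _)).add ((hB.mul_const _).mul (hpow _ (by linarith)))
    simp only [mul_zero, sub_zero, add_zero] at h1
    refine h1.congr' ?_
    filter_upwards [hBe] with w hw
    rw [hy]
    simp only
    rw [hw, div_eq_mul_inv c₁]
  have hs2 : Real.sqrt 2 < 2 := by
    rw [Real.sqrt_lt' (by norm_num)]
    norm_num
  -- comparison
  have hcomp : ∀ᶠ w : ℝ in atTop, |x w - y w| ≤ 4 * w ^ (1 - a) := by
    filter_upwards [hxlim.eventually_lt_const hs2, hylim.eventually_lt_const hs2,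
      eventually_ge_atTop (1 : ℝ)] with w hx2 hy2 hw1
    have hw : 0 < w := by linarith
    have hwa : 0 < w ^ a := Real.rpow_pos_of_pos hw _
    have hwb : 0 < w ^ b := Real.rpow_pos_of_pos hw _
    have c1 := G_compare (w ^ a) (w ^ b) w hwa.le hwb hw
    have c2 := G_compare (w ^ b) (w ^ a) w hwb.le hwa hw
    have ex : G (Rect (w ^ a) w) = x w * w ^ a := by
      rw [hx]; simp only; rw [div_mul_cancel₀ _ hwa.ne']
    have ey : G (Rect (w ^ b) w) = y w * w ^ b := by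
      rw [hy]; simp only; rw [div_mul_cancel₀ _ hwb.ne']
    rw [ex, ey] at c1 c2
    have hx0 : 0 ≤ x w := div_nonneg (G_nonneg _) hwa.le
    have hy0 : 0 ≤ y w := div_nonneg (G_nonneg _) hwb.le
    have e1 : w ^ (1 - a) = w / w ^ a := by rw [Real.rpow_sub hw, Real.rpow_one]
    have e2 : w ^ (1 - b) = w / w ^ b := by rw [Real.rpow_sub hw, Real.rpow_one]
    have e3 : w ^ (1 - b) ≤ w ^ (1 - a) := Real.rpow_le_rpow_of_exponent_le hw1 (by linarith)
    have d1 : x w ≤ (1 + 2 * w ^ (1 - a)) * y w := by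
      rw [e1]
      have : w ^ b * (x w * w ^ a) ≤ w ^ b * ((w ^ a + 2 * w) * y w) := by linarith
      have := le_of_mul_le_mul_left this hwb
      have h3 : (1 + 2 * (w / w ^ a)) * y w = ((w ^ a + 2 * w) * y w) / w ^ a := by
        field_simp
      rw [h3, le_div_iff₀ hwa]
      exact this
    have d2 : y w ≤ (1 + 2 * w ^ (1 - b)) * x w := by
      rw [e2]
      have : w ^ a * (y w * w ^ b) ≤ w ^ a * ((w ^ b + 2 * w) * x w) := by linarith
      have := le_of_mul_le_mul_left this hwa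
      have h3 : (1 + 2 * (w / w ^ b)) * x w = ((w ^ b + 2 * w) * x w) / w ^ b := by
        field_simp
      rw [h3, le_div_iff₀ hwb]
      exact this
    have p1 : 0 ≤ w ^ (1 - a) := Real.rpow_nonneg hw.le _
    have p2 : 0 ≤ w ^ (1 - b) := Real.rpow_nonneg hw.le _
    rw [abs_le]
    constructor
    · nlinarith
    · nlinarith
  -- first: the constants `c₁` agree
  have hc : c₁' = c₁ := by
    have l1 : Tendsto (fun w : ℝ => w * (x w - y w)) atTop (𝓝 0) := by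
      have hz : Tendsto (fun w : ℝ => 4 * w ^ (-(a - 2))) atTop (𝓝 0) := by
        have := (hpow (a - 2) (by linarith)).const_mul 4
        simpa using this
      refine squeeze_zero_norm' ?_ hz
      filter_upwards [hcomp, eventually_gt_atTop (0 : ℝ)] with w h1 hw
      rw [Real.norm_eq_abs, abs_mul, abs_of_pos hw]
      have e : 4 * w ^ (-(a - 2)) = w * (4 * w ^ (1 - a)) := by
        have : w ^ (-(a - 2)) = w * w ^ (1 - a) := by
          rw [show -(a - 2) = 1 + (1 - a) by ring, Real.rpow_add hw, Real.rpow_one]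
        rw [this]; ring
      rw [e]
      exact mul_le_mul_of_nonneg_left h1 hw.le
    have l2 : Tendsto (fun w : ℝ => w * (x w - y w)) atTop (𝓝 (c₁ - c₁')) := by
      have h1 : Tendsto (fun w : ℝ => (c₁ - c₁') + A w * c₂' * w ^ (-(a / 2 - 3 / 4))
          - B w * c₂ * w ^ (-(b / 2 - 3 / 4))) atTop
          (𝓝 ((c₁ - c₁') + 1 * c₂' * 0 - 1 * c₂ * 0)) :=
        (tendsto_const_nhds.add ((hA.mul_const _).mul (hpow _ (by linarith)))).sub
          ((hB.mul_const _).mul (hpow _ (by linarith)))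
      simp only [mul_zero, sub_zero, add_zero] at h1
      refine h1.congr' ?_
      filter_upwards [hAe, hBe, eventually_gt_atTop (0 : ℝ)] with w h1 h2 hw
      rw [hx, hy]
      simp only
      rw [h1, h2]
      have e1 : w ^ (-(a / 2 - 3 / 4)) = w * w ^ (-(a / 2 + 1 / 4)) := by
        rw [show -(a / 2 - 3 / 4) = 1 + (-(a / 2 + 1 / 4)) by ring, Real.rpow_add hw, Real.rpow_one]
      have e2 : w ^ (-(b / 2 - 3 / 4)) = w * w ^ (-(b / 2 + 1 / 4)) := by
        rw [show -(b / 2 - 3 / 4) = 1 + (-(b / 2 + 1 / 4)) by ring, Real.rpow_add hw, Real.rpow_one]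
      rw [e1, e2]
      field_simp
      ring
    have := tendsto_nhds_unique l1 l2
    linarith
  -- second: the constant `c₂'` vanishes
  apply hc₂'
  have l1 : Tendsto (fun w : ℝ => w ^ (a / 2 + 1 / 4) * (x w - y w)) atTop (𝓝 0) := by
    have hz : Tendsto (fun w : ℝ => 4 * w ^ (-(a / 2 - 5 / 4))) atTop (𝓝 0) := by
      have := (hpow (a / 2 - 5 / 4) (by linarith)).const_mul 4
      simpa using this
    refine squeeze_zero_norm' ?_ hz
    filter_upwards [hcomp, eventually_gt_atTop (0 : ℝ)] with w h1 hw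
    have hwp : 0 < w ^ (a / 2 + 1 / 4) := Real.rpow_pos_of_pos hw _
    rw [Real.norm_eq_abs, abs_mul, abs_of_pos hwp]
    have e : 4 * w ^ (-(a / 2 - 5 / 4)) = w ^ (a / 2 + 1 / 4) * (4 * w ^ (1 - a)) := by
      have : w ^ (-(a / 2 - 5 / 4)) = w ^ (a / 2 + 1 / 4) * w ^ (1 - a) := by
        rw [← Real.rpow_add hw]
        congr 1
        ring
      rw [this]; ring
    rw [e]
    exact mul_le_mul_of_nonneg_left h1 hwp.le
  have l2 : Tendsto (fun w : ℝ => w ^ (a / 2 + 1 / 4) * (x w - y w)) atTop (𝓝 c₂') := by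
    have h1 : Tendsto (fun w : ℝ => A w * c₂' - B w * c₂ * w ^ (-((b - a) / 2))) atTop
        (𝓝 (1 * c₂' - 1 * c₂ * 0)) :=
      (hA.mul_const _).sub ((hB.mul_const _).mul (hpow _ (by linarith)))
    simp only [mul_zero, sub_zero, one_mul] at h1
    refine h1.congr' ?_
    filter_upwards [hAe, hBe, eventually_gt_atTop (0 : ℝ)] with w h1 h2 hw
    rw [hx, hy]
    simp only
    rw [h1, h2, hc]
    have e1 : w ^ (-(a / 2 + 1 / 4)) = (w ^ (a / 2 + 1 / 4))⁻¹ := by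
      rw [Real.rpow_neg hw.le]
    have e2 : w ^ (-((b - a) / 2)) = w ^ (a / 2 + 1 / 4) * w ^ (-(b / 2 + 1 / 4)) := by
      rw [← Real.rpow_add hw]
      congr 1
      ring
    rw [e1, e2]
    have hwp : w ^ (a / 2 + 1 / 4) ≠ 0 := (Real.rpow_pos_of_pos hw _).ne'
    field_simp
    ring
  exact tendsto_nhds_unique l2 l1

end Pool.Agent.Results.MP_2ff427_pr.PowerWidths
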