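import Mathlib
import Pool.Agent.LISB28.Speed

set_option autoImplicit false

open MeasureTheory Set Filter Topology

namespace Pool.Agent.Results.MP_2ff427_pr.WidthUniformLaw

/-- `E L^R` for the rotated rectangle of length `ℓ` and width `w` and a unit rate Poisson process:
the sum over the number `n` of points of `e^{-ℓ w} / n!` times the integral over `R^n` of the
largest size of a set of indices whose points are pairwise strictly comparable in both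
coordinates. The rectangle is `0 ≤ (x + y)/√2 ≤ ℓ`, `|x - y|/√2 ≤ w/2`. -/
noncomputable def meanLongest (ℓ w : ℝ) : ℝ :=
  ∑' n : ℕ, Real.exp (-(ℓ * w)) / (n.factorial : ℝ) *
    ∫ x in Set.univ.pi (fun _ : Fin n =>
        {p : ℝ × ℝ | 0 ≤ p.1 + p.2 ∧ p.1 + p.2 ≤ Real.sqrt 2 * ℓ ∧
          |p.1 - p.2| ≤ Real.sqrt 2 * w / 2}),
      (((sSup {k : ℕ | ∃ s : Finset (Fin n), s.card = k ∧
          ∀ i ∈ s, ∀ j ∈ s, i ≠ j →
            (((x i).1 < (x j).1 ∧ (x i).2 < (x j).2) ∨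
             ((x j).1 < (x i).1 ∧ (x j).2 < (x i).2))}) : ℕ) : ℝ)

open Pool.Agent.Lib_helper98.LIS Pool.Agent.LISB28

lemma meanLongest_eq (ℓ w : ℝ) (hℓ : 0 ≤ ℓ) (hw : 0 ≤ w) : meanLongest ℓ w = G (Rect ℓ w) :=
  frozen_eq_G ℓ w hℓ hw

/-- The remainder is `O(w)`, so it is small compared with `ℓ^{1/2} w^{-1/4}` if `w = o(ℓ^{2/5})`. -/
lemma remainder (w : ℝ → ℝ) (hw : Tendsto w atTop atTop)
    (h : Tendsto (fun ℓ : ℝ => w ℓ / ℓ ^ ((2 : ℝ) / 5)) atTop (𝓝 0)) :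
    Tendsto (fun ℓ : ℝ => (meanLongest ℓ (w ℓ) - speed (w ℓ) * ℓ)
      / (ℓ ^ ((1 : ℝ) / 2) / (w ℓ) ^ ((1 : ℝ) / 4))) atTop (𝓝 0) := by
  have h1 : Tendsto (fun ℓ : ℝ => 22 * (w ℓ / ℓ ^ ((2 : ℝ) / 5)) ^ ((5 : ℝ) / 4)) atTop (𝓝 0) := by
    have := (h.rpow_const (p := (5 : ℝ) / 4) (Or.inr (by norm_num))).const_mul 22
    rwa [Real.zero_rpow (by norm_num), mul_zero] at this
  refine squeeze_zero' ?_ ?_ h1
  · filter_upwards [eventually_ge_atTop (0 : ℝ), hw.eventually_gt_atTop 0] with ℓ hℓ hwℓ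
    rw [meanLongest_eq _ _ hℓ hwℓ.le]
    have := (linear_law (w ℓ) ℓ hwℓ hℓ).1
    exact div_nonneg (by linarith) (by positivity)
  · filter_upwards [eventually_gt_atTop (0 : ℝ), hw.eventually_gt_atTop 0] with ℓ hℓ hwℓ
    rw [meanLongest_eq _ _ hℓ.le hwℓ.le]
    have h2 := (linear_law (w ℓ) ℓ hwℓ hℓ.le).2
    have h3 : 0 < ℓ ^ ((1 : ℝ) / 2) / (w ℓ) ^ ((1 : ℝ) / 4) := by positivity
    rw [div_le_iff₀ h3]
    have h4 : 22 * (w ℓ / ℓ ^ ((2 : ℝ) / 5)) ^ ((5 : ℝ) / 4) *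
        (ℓ ^ ((1 : ℝ) / 2) / (w ℓ) ^ ((1 : ℝ) / 4)) = 22 * w ℓ := by
      rw [Real.div_rpow hwℓ.le (by positivity), ← Real.rpow_mul hℓ.le]
      have e1 : (2 : ℝ) / 5 * (5 / 4) = 1 / 2 := by norm_num
      have e2 : (w ℓ) ^ ((5 : ℝ) / 4) = w ℓ * (w ℓ) ^ ((1 : ℝ) / 4) := by
        rw [show (5 : ℝ) / 4 = 1 + 1 / 4 by norm_num, Real.rpow_add hwℓ, Real.rpow_one]
      rw [e1, e2]
      have h5 : ℓ ^ ((1 : ℝ) / 2) ≠ 0 := by positivity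
      have h6 : (w ℓ) ^ ((1 : ℝ) / 4) ≠ 0 := by positivity
      field_simp
    rw [h4]
    linarith

/-- For a suitable function `A` of the width the mean is `A(w) ℓ` up to an error between `0` and
`22 w`, uniformly in all widths and lengths; so after `A(w) ℓ` there is no term of the order
`ℓ^{1/2} w^{-1/4}` if `w = o(ℓ^{2/5})`. -/
theorem result :
    ∃ A : ℝ → ℝ,
      (∀ w ℓ : ℝ, 0 < w → 0 ≤ ℓ →
        A w * ℓ ≤ meanLongest ℓ w ∧ meanLongest ℓ w ≤ A w * ℓ + 22 * w) ∧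
      ∀ w : ℝ → ℝ, Tendsto w atTop atTop →
        Tendsto (fun ℓ : ℝ => w ℓ / ℓ ^ ((2 : ℝ) / 5)) atTop (𝓝 0) →
        Tendsto (fun ℓ : ℝ => (meanLongest ℓ (w ℓ) - A (w ℓ) * ℓ)
          / (ℓ ^ ((1 : ℝ) / 2) / (w ℓ) ^ ((1 : ℝ) / 4))) atTop (𝓝 0) := by
  refine ⟨speed, fun w ℓ hw hℓ => ?_, remainder⟩
  rw [meanLongest_eq _ _ hℓ hw.le]
  exact linear_law w ℓ hw hℓ

end Pool.Agent.Results.MP_2ff427_pr.WidthUniformLaw
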